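import Pool.Agent.H27.TM.TargetsL
import Pool.Agent.H31.SW.Tools

/-!
# (E1) the decay of the dual function (twelfth moment of Hecke L-functions)
-/

set_option autoImplicit false

open MeasureTheory Set Filter Complex

namespace Pool.Agent.H59.TMB.E1

open Pool.Agent.H27.TM
open Pool.Agent.H29.DW (dg Rl)
open Pool.Agent.H31.SW

private lemma rpow_inv {X : ℝ} (hX : 0 ≤ X) (k : ℕ) : X ^ (-(k : ℝ)) = (X ^ k)⁻¹ := by
  rw [Real.rpow_neg hX, Real.rpow_natCast]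

private lemma t_low {t₀ t : ℂ} (h1 : 1 / 3 ≤ ‖t₀‖) (ht : t ∈ Metric.ball t₀ (2 * (1 / 2500))) :
    33 / 100 ≤ ‖t‖ := by
  rw [Metric.mem_ball, dist_eq_norm] at ht
  have : ‖t₀‖ ≤ ‖t‖ + ‖t - t₀‖ := by
    have h := norm_sub_le t (t - t₀)
    have h2 : t - (t - t₀) = t₀ := by ring
    rwa [h2] at h
  linarith

private lemma t_upp {t₀ t : ℂ} (h1 : ‖t₀‖ ≤ 2) (ht : t ∈ Metric.ball t₀ (2 * (1 / 2500))) :
    ‖t‖ ≤ 201 / 100 := by
  rw [Metric.mem_ball, dist_eq_norm] at ht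
  have : ‖t‖ ≤ ‖t₀‖ + ‖t - t₀‖ := by
    have h := norm_add_le t₀ (t - t₀)
    have h2 : t₀ + (t - t₀) = t := by ring
    rwa [h2] at h
  linarith

private lemma den_low {α : ℝ} {t : ℂ} (hα : 0 < α) (hα1 : α ≤ 1 / 10000) (ht : 33 / 100 ≤ ‖t‖) :
    1 / 10 ≤ ‖t ^ 2 - (α : ℂ) ^ 2‖ := by
  have h1 : ‖t ^ 2‖ - ‖(α : ℂ) ^ 2‖ ≤ ‖t ^ 2 - (α : ℂ) ^ 2‖ := norm_sub_norm_le _ _
  rw [norm_pow, norm_pow, norm_real, Real.norm_eq_abs, abs_of_pos hα] at h1
  nlinarith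

private lemma den_upp {α : ℝ} {t : ℂ} (hα : 0 < α) (hα1 : α ≤ 1 / 10000) (ht : ‖t‖ ≤ 201 / 100) :
    ‖t ^ 2 - (α : ℂ) ^ 2‖ ≤ 5 := by
  have h1 : ‖t ^ 2 - (α : ℂ) ^ 2‖ ≤ ‖t ^ 2‖ + ‖(α : ℂ) ^ 2‖ := norm_sub_le _ _
  rw [norm_pow, norm_pow, norm_real, Real.norm_eq_abs, abs_of_pos hα] at h1
  have := norm_nonneg t
  nlinarith

/-- the derivative of the phase -/
private noncomputable def pd (α : ℝ) (c m t : ℂ) : ℂ := m + c * (-(2 * α) / (t ^ 2 - α ^ 2))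

private lemma triv {r : Bool} {α : ℝ} {c m t₀ : ℂ} {Q : ℂ → ℂ} {G : ℝ} {k : ℕ} (hG : 0 ≤ G)
    (hQ : DS k G t₀ (1 / 2500) Q) : ‖El r α c Q m‖ ≤ G := by
  unfold El
  have h := norm_itg_le (r := r) (G := fun t => EE (m * t + c * lo α t) * Q t) (w₀ := t₀)
    (ρ := 1 / 2500) (B := G) (by norm_num) hG
    (fun w => by rw [norm_mul, norm_EE, one_mul]; exact DS.norm_le hG hQ w)
    (fun w hw => by
      show EE (m * w + c * lo α w) * Q w = 0
      rw [hQ.eq_zero hw, mul_zero])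
  refine h.trans ?_
  norm_num
  linarith

private lemma nonst {C : ℝ} {k : ℕ}
    (hNS : ∀ (r : Bool) (w₀ : ℂ) (Ψ p g : ℂ → ℂ)
    (G P : ℝ), 0 ≤ G → 0 < P → (∀ w ∈ Metric.ball w₀ (2 * (1 / 2500)), HasDerivAt Ψ (p w) w) →
    (∀ w ∈ Metric.ball w₀ (2 * (1 / 2500)), Rl r w → Rl r (p w)) →
    (∀ w ∈ Metric.ball w₀ (2 * (1 / 2500)), P ≤ ‖p w‖) → DS k G w₀ (1 / 2500) g →
    ‖itg r (fun w => g w * EE (Ψ w))‖ ≤ C * G / P ^ k) (hLO : M_LO)
    {r : Bool} {α : ℝ} {c m t₀ : ℂ} {Q : ℂ → ℂ} {G P : ℝ} (hα : 0 < α) (hα1 : α ≤ 1 / 10000)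
    (hc : Rl r c) (hm : Rl r m) (hG : 0 ≤ G) (hP : 0 < P) (h1 : 1 / 3 ≤ ‖t₀‖)
    (hQ : DS k G t₀ (1 / 2500) Q)
    (hp : ∀ t ∈ Metric.ball t₀ (2 * (1 / 2500)), P ≤ ‖pd α c m t‖) :
    ‖El r α c Q m‖ ≤ C * G / P ^ k := by
  have h := hNS r t₀ (fun t => m * t + c * lo α t) (pd α c m) Q G P hG hP (fun t ht => ?_)
    (fun t ht hr => ?_) hp hQ
  · unfold El
    rw [itg_congr (G' := fun w => Q w * EE (m * w + c * lo α w)) (fun w _ => mul_comm _ _)]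
    exact h
  · have h2 := (hLO.1 α t hα hα1 (by linarith [t_low h1 ht])).1
    have h3 : HasDerivAt (fun t : ℂ => m * t) m t := by
      simpa using (hasDerivAt_id t).const_mul m
    exact h3.add (h2.const_mul c)
  · unfold pd
    refine Rl_add hm (Rl_mul hc (Rl_div ?_ ?_))
    · have : (-(2 * (α : ℂ))) = ((-(2 * α) : ℝ) : ℂ) := by push_cast; ring
      rw [this]
      exact Rl_ofReal r _
    · exact Rl_sub (Rl_pow hr 2) (Rl_pow (Rl_ofReal r α) 2)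

theorem pf_E1 (hLO : M_LO) (hNS : Pool.Agent.H31.SW.W_NS) : M_E1 := by
  intro k
  obtain ⟨C, hC, hN⟩ := hNS k (1 / 2500) (by norm_num)
  refine ⟨41 ^ k + C * 5 ^ k, by positivity, fun r α c m Q G hα hα1 hc hm hG hAm => ?_⟩
  obtain ⟨t₀, -, h1, h2, hQ⟩ := hAm
  have hC5 : 0 ≤ C * 5 ^ k := by positivity
  have h41 : (0 : ℝ) < 41 ^ k := by positivity
  constructor
  · set M : ℝ := max 1 (α * ‖c‖) with hM
    have hM1 : 1 ≤ M := le_max_left _ _
    have hMc : α * ‖c‖ ≤ M := le_max_right _ _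
    have hX0 : 0 < 1 + ‖m‖ / M := by positivity
    rw [rpow_inv hX0.le]
    have hXk : 0 < (1 + ‖m‖ / M) ^ k := by positivity
    rw [← div_eq_mul_inv, le_div_iff₀ hXk]
    by_cases hm40 : ‖m‖ ≤ 40 * M
    · have hX : 1 + ‖m‖ / M ≤ 41 := by
        have : ‖m‖ / M ≤ 40 := by rw [div_le_iff₀ (by linarith)]; exact hm40
        linarith
      have hXp : (1 + ‖m‖ / M) ^ k ≤ 41 ^ k := pow_le_pow_left₀ hX0.le hX k
      have ht := triv (r := r) (α := α) (c := c) (m := m) hG hQ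
      calc ‖El r α c Q m‖ * (1 + ‖m‖ / M) ^ k ≤ G * 41 ^ k :=
            mul_le_mul ht hXp hXk.le hG
        _ ≤ (41 ^ k + C * 5 ^ k) * G := by nlinarith
    · push Not at hm40
      have hmp : 0 < ‖m‖ := by linarith
      have hE := nonst hN hLO (P := ‖m‖ / 2) hα hα1 hc hm hG (by linarith) h1 hQ (fun t ht => by
        have hd := den_low hα hα1 (t_low h1 ht)
        unfold pd
        have h3 : ‖c * (-(2 * (α : ℂ)) / (t ^ 2 - (α : ℂ) ^ 2))‖ ≤ 20 * M := by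
          rw [norm_mul, norm_div, norm_neg, norm_mul, norm_real, Real.norm_eq_abs,
            abs_of_pos hα, Complex.norm_ofNat, ← mul_div_assoc, div_le_iff₀ (by linarith)]
          have : 0 ≤ ‖c‖ := norm_nonneg _
          have h5 : 20 * M * (1 / 10) ≤ 20 * M * ‖t ^ 2 - (α : ℂ) ^ 2‖ :=
            mul_le_mul_of_nonneg_left hd (by linarith)
          linarith
        have h4 : ‖m‖ ≤ ‖m + c * (-(2 * (α : ℂ)) / (t ^ 2 - (α : ℂ) ^ 2))‖ +
            ‖c * (-(2 * (α : ℂ)) / (t ^ 2 - (α : ℂ) ^ 2))‖ := by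
          have h := norm_sub_le (m + c * (-(2 * (α : ℂ)) / (t ^ 2 - (α : ℂ) ^ 2)))
            (c * (-(2 * (α : ℂ)) / (t ^ 2 - (α : ℂ) ^ 2)))
          rwa [add_sub_cancel_right] at h
        linarith)
      have hX : 1 + ‖m‖ / M ≤ 2 * ‖m‖ := by
        have : ‖m‖ / M ≤ ‖m‖ := div_le_self (norm_nonneg _) hM1
        linarith
      have hXp : (1 + ‖m‖ / M) ^ k ≤ (2 * ‖m‖) ^ k := pow_le_pow_left₀ hX0.le hX k
      have hP0 : 0 < (‖m‖ / 2) ^ k := by positivity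
      calc ‖El r α c Q m‖ * (1 + ‖m‖ / M) ^ k ≤ (C * G / (‖m‖ / 2) ^ k) * (2 * ‖m‖) ^ k :=
            mul_le_mul hE hXp hXk.le (by positivity)
        _ = C * G * 4 ^ k := by
            have : (2 * ‖m‖) ^ k = 4 ^ k * (‖m‖ / 2) ^ k := by
              rw [← mul_pow]; congr 1; ring
            rw [this]
            field_simp
        _ ≤ C * G * 5 ^ k := by
            apply mul_le_mul_of_nonneg_left _ (by positivity)
            exact pow_le_pow_left₀ (by norm_num) (by norm_num) k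
        _ ≤ (41 ^ k + C * 5 ^ k) * G := by nlinarith [mul_nonneg h41.le hG]
  · have hX0 : 0 < 1 + α * ‖c‖ := by positivity
    rw [rpow_inv hX0.le]
    have hXk : 0 < (1 + α * ‖c‖) ^ k := by positivity
    rw [← div_eq_mul_inv, le_div_iff₀ hXk]
    by_cases hc1 : α * ‖c‖ ≤ 1
    · have hXp : (1 + α * ‖c‖) ^ k ≤ 41 ^ k := pow_le_pow_left₀ hX0.le (by linarith) k
      have ht := triv (r := r) (α := α) (c := c) (m := 0) hG hQ
      calc ‖El r α c Q 0‖ * (1 + α * ‖c‖) ^ k ≤ G * 41 ^ k :=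
            mul_le_mul ht hXp hXk.le hG
        _ ≤ (41 ^ k + C * 5 ^ k) * G := by nlinarith
    · push Not at hc1
      have hac : 0 < α * ‖c‖ := by linarith
      have hE := nonst hN hLO (P := 2 / 5 * (α * ‖c‖)) hα hα1 hc (Rl_zero r) hG (by positivity)
        h1 hQ (fun t ht => by
        have hd := den_low hα hα1 (t_low h1 ht)
        have hu := den_upp hα hα1 (t_upp h2 ht)
        unfold pd
        rw [zero_add, norm_mul, norm_div, norm_neg, norm_mul, norm_real, Real.norm_eq_abs,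
            abs_of_pos hα, Complex.norm_ofNat, ← mul_div_assoc, le_div_iff₀ (by linarith)]
        have h5 : 2 / 5 * (α * ‖c‖) * ‖t ^ 2 - (α : ℂ) ^ 2‖ ≤ 2 / 5 * (α * ‖c‖) * 5 :=
            mul_le_mul_of_nonneg_left hu (by positivity)
        linarith)
      have hX : 1 + α * ‖c‖ ≤ 2 * (α * ‖c‖) := by linarith
      have hXp : (1 + α * ‖c‖) ^ k ≤ (2 * (α * ‖c‖)) ^ k := pow_le_pow_left₀ hX0.le hX k
      calc ‖El r α c Q 0‖ * (1 + α * ‖c‖) ^ k ≤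
            (C * G / (2 / 5 * (α * ‖c‖)) ^ k) * (2 * (α * ‖c‖)) ^ k :=
            mul_le_mul hE hXp hXk.le (by positivity)
        _ = C * G * 5 ^ k := by
            have : (2 * (α * ‖c‖)) ^ k = 5 ^ k * (2 / 5 * (α * ‖c‖)) ^ k := by
              rw [← mul_pow]; congr 1; ring
            rw [this]
            have hP0 : 0 < (2 / 5 * (α * ‖c‖)) ^ k := by positivity
            rw [div_mul_eq_mul_div, div_eq_iff hP0.ne']
            ring
        _ ≤ (41 ^ k + C * 5 ^ k) * G := by nlinarith [mul_nonneg h41.le hG]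

end Pool.Agent.H59.TMB.E1
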