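import Pool.Agent.H27.TM.TargetsG
import Pool.Agent.H31.SW.TargetsG

/-!
# (NZ) nonzero lattice points in a box at the origin (twelfth moment of Hecke L-functions)
-/

set_option autoImplicit false

open NumberField NumberField.InfinitePlace NumberField.Units
  NumberField.Units.dirichletUnitTheorem MeasureTheory Set Filter Complex
open scoped nonZeroDivisors ENNReal

namespace Pool.Agent.H59.TMB.NZ

open Pool.Agent.H27.TM
open Pool.Agent.H25.HK Pool.Agent.H23.LB Pool.Agent.H23.LC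
open Pool.Agent.H29.DW (dg Rl lf wv Pos Wg cpar Ci om zs rv)
open Pool.Agent.H31.SW (DD PP)

private lemma DD_nonneg {K : Type} [Field K] [NumberField K] (L : FI K)
    (y : InfinitePlace K → ℝ) : 0 ≤ DD L y := by
  unfold DD
  refine div_nonneg (Real.exp_pos _).le ?_
  exact_mod_cast FractionalIdeal.absNorm_nonneg L

theorem pf_NZ (hCU : Pool.Agent.H31.SW.W_CU) (hNB : Pool.Agent.H31.SW.W_NB) : M_NZ := by
  intro n hn
  obtain ⟨C, hC, h⟩ := hCU n hn
  refine ⟨2 * C, by linarith, fun K _ _ hK L y ω R hL hω hR => ?_⟩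
  obtain ⟨hf, hc⟩ := h K hK L y ω (fun _ => 0) R hL hω hR
  have hsub : {x : K | x ∈ L ∧ x ≠ 0 ∧ ∀ v, ‖wv v x y ω‖ ≤ R v} ⊆
      {x : K | x ∈ L ∧ ∀ v, ‖wv v x y ω - (fun _ => 0 : InfinitePlace K → ℂ) v‖ ≤ R v} := by
    rintro x ⟨h1, -, h3⟩
    exact ⟨h1, fun v => by simpa using h3 v⟩
  refine ⟨hf.subset hsub, ?_⟩
  have hPP : 0 ≤ PP R := Finset.prod_nonneg fun v _ => pow_nonneg (hR v) _
  have hDD := DD_nonneg L y
  rcases Set.eq_empty_or_nonempty {x : K | x ∈ L ∧ x ≠ 0 ∧ ∀ v, ‖wv v x y ω‖ ≤ R v} with he | he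
  · rw [he, Set.ncard_empty, Nat.cast_zero]
    positivity
  · obtain ⟨x, h1, h2, h3⟩ := he
    have hnb := hNB K L y ω x hL hω h1 h2
    have h4 : ∏ v : InfinitePlace K, ‖wv v x y ω‖ ^ v.mult ≤ PP R :=
      Finset.prod_le_prod (fun v _ => pow_nonneg (norm_nonneg _) _)
        (fun v _ => pow_le_pow_left₀ (norm_nonneg _) (h3 v) _)
    have h5 : 1 ≤ DD L y * PP R := hnb.trans (mul_le_mul_of_nonneg_left h4 hDD)
    have h6 : ({x : K | x ∈ L ∧ x ≠ 0 ∧ ∀ v, ‖wv v x y ω‖ ≤ R v}.ncard : ℝ) ≤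
        C * (1 + DD L y * PP R) :=
      le_trans (by exact_mod_cast Set.ncard_le_ncard hsub hf) hc
    nlinarith

end Pool.Agent.H59.TMB.NZ
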